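import Mathlib

/-!
# The record-indicator harmonic series: the analytic part
-/

set_option autoImplicit false

open MeasureTheory Filter Topology

namespace Q289.RH

/-- the jumps of the series: `p k = 1 / (k + 2)` -/
noncomputable def p (k : ℕ) : ℝ := 1 / ((k : ℝ) + 2)

theorem p_pos (k : ℕ) : 0 < p k := by unfold p; positivity

theorem p_le_half (k : ℕ) : p k ≤ 1 / 2 := by
  unfold p
  apply one_div_le_one_div_of_le (by norm_num)
  have := Nat.cast_nonneg (α := ℝ) k
  linarith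

theorem p_le_third (k : ℕ) : p (k + 1) ≤ 1 / 3 := by
  unfold p
  apply one_div_le_one_div_of_le (by norm_num)
  push_cast
  have := Nat.cast_nonneg (α := ℝ) k
  linarith

theorem p_zero : p 0 = 1 / 2 := by unfold p; norm_num

theorem sum_p_sq (K : ℕ) : ∑ k ∈ Finset.range K, p (k + 1) ^ 2 ≤ 1 / 2 - 1 / ((K : ℝ) + 2) := by
  induction K with
  | zero => norm_num
  | succ K ih =>
    rw [Finset.sum_range_succ]
    have h1 : p (K + 1) ^ 2 ≤ 1 / ((K : ℝ) + 2) - 1 / (((K + 1 : ℕ) : ℝ) + 2) := by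
      unfold p
      push_cast
      rw [div_sub_div _ _ (by positivity) (by positivity), div_pow,
        div_le_div_iff₀ (by positivity) (by positivity)]
      have := Nat.cast_nonneg (α := ℝ) K
      nlinarith
    linarith

theorem summable_p_sq : Summable fun k => p (k + 1) ^ 2 := by
  refine summable_of_sum_range_le (c := 1 / 2) (fun k => sq_nonneg _) fun K => ?_
  have := sum_p_sq K
  have h2 : 0 < 1 / ((K : ℝ) + 2) := by positivity
  linarith

theorem tsum_p_sq : ∑' k, p (k + 1) ^ 2 ≤ 1 / 2 := by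
  refine summable_p_sq.tsum_le_of_sum_range_le fun K => ?_
  have := sum_p_sq K
  have h2 : 0 < 1 / ((K : ℝ) + 2) := by positivity
  linarith

/-- the mass of an interval of length `ε` -/
noncomputable def m (ν : Measure ℝ) (ε y : ℝ) : ℝ := ν.real (Set.Ico y (y + ε))

/-- the difference of the masses of the two adjacent intervals at `y`, divided by the length -/
noncomputable def Dl (ν : Measure ℝ) (ε y : ℝ) : ℝ := (m ν ε y - m ν ε (y - ε)) / ε

theorem m_nonneg (ν : Measure ℝ) (ε y : ℝ) : 0 ≤ m ν ε y := measureReal_nonneg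

theorem m_neg {ν : Measure ℝ} (h : ν (Set.Iio 0) = 0) {ε y : ℝ} (hy : y + ε ≤ 0) :
    m ν ε y = 0 := by
  unfold m
  rw [measureReal_def, measure_mono_null _ h, ENNReal.toReal_zero]
  intro x hx
  exact hx.2.trans_le hy

theorem Dl_neg {ν : Measure ℝ} (h : ν (Set.Iio 0) = 0) {ε y : ℝ} (hε : 0 ≤ ε) (hy : y + ε ≤ 0) :
    Dl ν ε y = 0 := by
  unfold Dl
  rw [m_neg h hy, m_neg h (by linarith)]
  simp

theorem Dl_zero {ν : Measure ℝ} (h : ν (Set.Iio 0) = 0) {ε : ℝ} :
    Dl ν ε 0 = m ν ε 0 / ε := by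
  unfold Dl
  rw [m_neg (y := 0 - ε) h (by linarith), sub_zero]

section density

variable {ν : Measure ℝ} [IsProbabilityMeasure ν] {g : ℝ → ℝ}

omit [IsProbabilityMeasure ν] in
/-- bounds on the mass from bounds on the density -/
theorem m_le (hd : ν = volume.withDensity fun x => ENNReal.ofReal (g x)) {ε y c : ℝ}
    (hε : 0 ≤ ε) (hc : 0 ≤ c) (h : ∀ x ∈ Set.Ico y (y + ε), g x ≤ c) : m ν ε y ≤ c * ε := by
  unfold m
  rw [measureReal_def]
  have h1 : ν (Set.Ico y (y + ε)) ≤ ENNReal.ofReal (c * ε) := by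
    rw [hd, withDensity_apply _ measurableSet_Ico]
    calc ∫⁻ x in Set.Ico y (y + ε), ENNReal.ofReal (g x)
        ≤ ∫⁻ x in Set.Ico y (y + ε), ENNReal.ofReal c :=
          setLIntegral_mono' measurableSet_Ico fun x hx => ENNReal.ofReal_le_ofReal (h x hx)
      _ = ENNReal.ofReal (c * ε) := by
          rw [setLIntegral_const, Real.volume_Ico, ← ENNReal.ofReal_mul hc]
          congr 2; ring
  exact ENNReal.toReal_le_of_le_ofReal (by positivity) h1

theorem le_m (hd : ν = volume.withDensity fun x => ENNReal.ofReal (g x)) {ε y c : ℝ}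
    (hε : 0 ≤ ε) (h : ∀ x ∈ Set.Ico y (y + ε), c ≤ g x) : c * ε ≤ m ν ε y := by
  rcases lt_or_ge c 0 with hc | hc
  · have := m_nonneg ν ε y
    nlinarith
  unfold m
  rw [measureReal_def]
  have h1 : ENNReal.ofReal (c * ε) ≤ ν (Set.Ico y (y + ε)) := by
    rw [hd, withDensity_apply _ measurableSet_Ico]
    calc ENNReal.ofReal (c * ε) = ∫⁻ x in Set.Ico y (y + ε), ENNReal.ofReal c := by
          rw [setLIntegral_const, Real.volume_Ico, ← ENNReal.ofReal_mul hc]
          congr 2; ring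
      _ ≤ ∫⁻ x in Set.Ico y (y + ε), ENNReal.ofReal (g x) :=
          setLIntegral_mono' measurableSet_Ico fun x hx => ENNReal.ofReal_le_ofReal (h x hx)
  exact (ENNReal.ofReal_le_iff_le_toReal (measure_ne_top _ _)).1 h1

/-- at a point of continuity of the density the difference of the averages tends to zero -/
theorem Dl_tendsto (hd : ν = volume.withDensity fun x => ENNReal.ofReal (g x)) {y : ℝ}
    (hc : ContinuousAt g y) {ε : ℕ → ℝ} (hε : Tendsto ε atTop (𝓝 0)) (hε0 : ∀ᶠ N in atTop, 0 < ε N) :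
    Tendsto (fun N => Dl ν (ε N) y) atTop (𝓝 0) := by
  rw [Metric.tendsto_atTop']
  intro δ hδ
  -- the density with negative values removed
  obtain ⟨η, hη, hη'⟩ := Metric.continuousAt_iff.1 hc (δ / 3) (by positivity)
  have h1 : ∀ᶠ N in atTop, ε N < η := hε.eventually (gt_mem_nhds hη)
  obtain ⟨N0, hN0⟩ := eventually_atTop.1 (h1.and hε0)
  refine ⟨N0, fun N hN => ?_⟩
  obtain ⟨h2, h3⟩ := hN0 N hN.le
  have hx : ∀ x, |x - y| < η → g y - δ / 3 ≤ g x ∧ g x ≤ g y + δ / 3 := by
    intro x hx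
    have := hη' (by rwa [Real.dist_eq])
    rw [Real.dist_eq, abs_lt] at this
    constructor <;> linarith
  have hR : ∀ x ∈ Set.Ico y (y + ε N), |x - y| < η := fun x hx => by
    rw [abs_of_nonneg (by linarith [hx.1])]; linarith [hx.2]
  have hL' : ∀ x ∈ Set.Ico (y - ε N) (y - ε N + ε N), |x - y| < η := fun x hx => by
    rw [abs_of_neg (by linarith [hx.2])]; linarith [hx.1]
  rw [Real.dist_eq, sub_zero]
  unfold Dl
  rw [abs_div, abs_of_pos h3, div_lt_iff₀ h3]
  rcases lt_or_ge (g y + δ / 3) 0 with hneg | hpos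
  · -- the density vanishes near the point
    have e1 : m ν (ε N) y ≤ 0 * ε N :=
      m_le hd h3.le le_rfl fun x hx' => by linarith [(hx x (hR x hx')).2]
    have e2 : m ν (ε N) (y - ε N) ≤ 0 * ε N :=
      m_le hd h3.le le_rfl fun x hx' => by linarith [(hx x (hL' x hx')).2]
    have e3 := m_nonneg ν (ε N) y
    have e4 := m_nonneg ν (ε N) (y - ε N)
    have e5 : m ν (ε N) y = 0 := by linarith
    have e6 : m ν (ε N) (y - ε N) = 0 := by linarith
    rw [e5, e6]; simp; positivity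
  · have e1 : m ν (ε N) y ≤ (g y + δ / 3) * ε N :=
      m_le hd h3.le hpos fun x hx' => (hx x (hR x hx')).2
    have e2 : m ν (ε N) (y - ε N) ≤ (g y + δ / 3) * ε N :=
      m_le hd h3.le hpos fun x hx' => (hx x (hL' x hx')).2
    have e3 : (g y - δ / 3) * ε N ≤ m ν (ε N) y :=
      le_m hd h3.le fun x hx' => (hx x (hR x hx')).1
    have e4 : (g y - δ / 3) * ε N ≤ m ν (ε N) (y - ε N) :=
      le_m hd h3.le fun x hx' => (hx x (hL' x hx')).1
    rw [abs_lt]
    constructor <;> nlinarith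

end density

/-- the analytic part of the argument -/
theorem analytic (ν : Measure ℝ) [IsProbabilityMeasure ν] (νk : ℕ → Measure ℝ)
    [∀ k, IsProbabilityMeasure (νk k)]
    (M1 : ∀ k y z, ν.real (Set.Ico y z) = (1 - p k) * (νk k).real (Set.Ico y z) +
      p k * (νk k).real (Set.Ico (y - p k) (z - p k)))
    (M2 : ∀ y z, 0 ≤ y → HasSum (fun k => p k ^ 2 * (νk k).real (Set.Ico (y - p k) (z - p k)))
      (∫ x in Set.Ico y z, x ∂ν))
    (M3' : ∀ k, νk k (Set.Iio 0) = 0)
    (M4 : ∀ N : ℕ, 0 < N → 1 / (2 * (N : ℝ)) ≤ ν.real (Set.Ico 0 (2 / N)))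
    {g : ℝ → ℝ} (hd : ν = volume.withDensity fun x => ENNReal.ofReal (g x))
    (hc : ∀ y ∈ Set.Ioc (0 : ℝ) (1 / 2), ContinuousAt g y) : False := by
  -- the sequence of lengths
  set ε : ℕ → ℝ := fun N => 2 / ((N : ℝ) + 1) with hεdef
  have hε0 : ∀ N, 0 < ε N := fun N => by simp only [hεdef]; positivity
  have hεt : Tendsto ε atTop (𝓝 0) := by
    have h1 : Tendsto (fun N : ℕ => ((N : ℝ) + 1)) atTop atTop :=
      tendsto_atTop_add_const_right _ _ tendsto_natCast_atTop_atTop
    exact h1.const_div_atTop 2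
  have hεlt : ∀ c : ℝ, 0 < c → ∀ᶠ N in atTop, ε N < c := fun c hc => hεt.eventually (gt_mem_nhds hc)
  set a : ℕ → ℝ := fun N => m ν (ε N) 0 / ε N with hadef
  have ha : ∀ N, 1 / 4 ≤ a N := by
    intro N
    have h1 := M4 (N + 1) (by omega)
    simp only [hadef]
    rw [le_div_iff₀ (hε0 N)]
    unfold m
    rw [zero_add]
    push_cast at h1
    refine le_trans (le_of_eq ?_) h1
    simp only [hεdef]
    field_simp
    norm_num
  have ha0 : ∀ N, 0 ≤ a N := fun N => by linarith [ha N]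
  -- the recursions
  have hm1 : ∀ k N y, m ν (ε N) y = (1 - p k) * m (νk k) (ε N) y +
      p k * m (νk k) (ε N) (y - p k) := by
    intro k N y
    unfold m
    rw [M1 k y (y + ε N)]
    congr 3
    ring_nf
  have hD1 : ∀ k N y, Dl ν (ε N) y = (1 - p k) * Dl (νk k) (ε N) y +
      p k * Dl (νk k) (ε N) (y - p k) := by
    intro k N y
    unfold Dl
    rw [hm1 k N y, hm1 k N (y - ε N)]
    have : y - ε N - p k = y - p k - ε N := by ring
    rw [this]
    ring
  have hDt : ∀ y ∈ Set.Ioc (0 : ℝ) (1 / 2), Tendsto (fun N => Dl ν (ε N) y) atTop (𝓝 0) :=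
    fun y hy => Dl_tendsto hd (hc y hy) hεt (Eventually.of_forall hε0)
  have hDt' : ∀ y ∈ Set.Ioc (0 : ℝ) (1 / 2), ∀ δ : ℝ, 0 < δ →
      ∀ᶠ N in atTop, |Dl ν (ε N) y| ≤ δ := by
    intro y hy δ hδ
    have := (hDt y hy).abs
    rw [abs_zero] at this
    filter_upwards [this.eventually (gt_mem_nhds hδ)] with N hN
    exact hN.le
  -- the value at zero
  have hzero : ∀ k, ∀ᶠ N in atTop, Dl (νk k) (ε N) 0 = a N / (1 - p k) := by
    intro k
    filter_upwards [hεlt (p k) (p_pos k)] with N hN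
    rw [Dl_zero (M3' k)]
    have h1 := hm1 k N 0
    rw [m_neg (ν := νk k) (M3' k) (y := 0 - p k) (by linarith), mul_zero, add_zero] at h1
    simp only [hadef]
    rw [h1]
    have hp := p_le_half k
    have h2 : (1 - p k) ≠ 0 := by linarith
    have h3 := (hε0 N).ne'
    field_simp
  -- the induction
  have hind : ∀ k, ∀ j : ℕ, ∀ z : ℝ, z ≤ 1 / 2 → z < j * p k → ∀ δ : ℝ, 0 < δ →
      ∀ᶠ N in atTop, |Dl (νk k) (ε N) z| ≤ 1 / (1 - p k) * a N + δ := by
    intro k j
    have hp := p_le_half k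
    have hp0 := p_pos k
    have hq : 0 < 1 - p k := by linarith
    induction j with
    | zero =>
      intro z _ hz δ hδ
      rw [Nat.cast_zero, zero_mul] at hz
      filter_upwards [hεlt (-z) (by linarith)] with N hN
      rw [Dl_neg (M3' k) (hε0 N).le (by linarith), abs_zero]
      have := ha0 N
      positivity
    | succ j ih =>
      intro z hz1 hz2 δ hδ
      rcases lt_trichotomy z 0 with h | h | h
      · filter_upwards [hεlt (-z) (by linarith)] with N hN
        rw [Dl_neg (M3' k) (hε0 N).le (by linarith), abs_zero]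
        have := ha0 N
        positivity
      · subst h
        filter_upwards [hzero k] with N hN
        rw [hN, abs_of_nonneg (div_nonneg (ha0 N) hq.le)]
        have : a N / (1 - p k) = 1 / (1 - p k) * a N := by ring
        linarith
      · have h1 := ih (z - p k) (by linarith) (by push_cast at hz2; linarith) (δ / 2) (by positivity)
        have h2 := hDt' z ⟨h, hz1⟩ (δ / 4) (by positivity)
        filter_upwards [h1, h2] with N h3 h4
        have h5 := hD1 k N z
        have h6 : (1 - p k) * Dl (νk k) (ε N) z =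
            Dl ν (ε N) z - p k * Dl (νk k) (ε N) (z - p k) := by linarith
        have h7 : (1 - p k) * |Dl (νk k) (ε N) z| ≤
            |Dl ν (ε N) z| + p k * |Dl (νk k) (ε N) (z - p k)| := by
          calc (1 - p k) * |Dl (νk k) (ε N) z| = |(1 - p k) * Dl (νk k) (ε N) z| := by
                rw [abs_mul, abs_of_pos hq]
            _ = |Dl ν (ε N) z - p k * Dl (νk k) (ε N) (z - p k)| := by rw [h6]
            _ ≤ |Dl ν (ε N) z| + |p k * Dl (νk k) (ε N) (z - p k)| := abs_sub _ _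
            _ = |Dl ν (ε N) z| + p k * |Dl (νk k) (ε N) (z - p k)| := by
                rw [abs_mul, abs_of_pos hp0]
        have hA : 0 ≤ 1 / (1 - p k) * a N := mul_nonneg (by positivity) (ha0 N)
        have h8 : (1 - p k) * |Dl (νk k) (ε N) z| ≤ δ / 4 + p k * (1 / (1 - p k) * a N + δ / 2) := by
          refine h7.trans (add_le_add h4 (mul_le_mul_of_nonneg_left h3 hp0.le))
        have h9 : δ / 4 + p k * (1 / (1 - p k) * a N + δ / 2) ≤
            (1 - p k) * (1 / (1 - p k) * a N + δ) := by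
          nlinarith
        exact le_of_mul_le_mul_left (h8.trans h9) hq
  have hind' : ∀ k, ∀ z : ℝ, z ≤ 1 / 2 → ∀ δ : ℝ, 0 < δ →
      ∀ᶠ N in atTop, |Dl (νk k) (ε N) z| ≤ 1 / (1 - p k) * a N + δ := by
    intro k z hz
    obtain ⟨j, hj⟩ := exists_nat_gt (z / p k)
    rw [div_lt_iff₀ (p_pos k)] at hj
    exact hind k j z hz hj
  -- the refined bound at positive points
  have href : ∀ k, ∀ z ∈ Set.Ioc (0 : ℝ) (1 / 2), ∀ δ : ℝ, 0 < δ →
      ∀ᶠ N in atTop, |Dl (νk (k + 1)) (ε N) z| ≤ 3 / 4 * a N + δ := by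
    intro k z hz δ hδ
    have hp := p_le_third k
    have hp0 := p_pos (k + 1)
    have hq : 0 < 1 - p (k + 1) := by linarith
    have h1 := hind' (k + 1) (z - p (k + 1)) (by linarith [hz.2]) (δ / 2) (by positivity)
    have h2 := hDt' z hz (δ / 4) (by positivity)
    filter_upwards [h1, h2] with N h3 h4
    have h5 := hD1 (k + 1) N z
    have h6 : (1 - p (k + 1)) * Dl (νk (k + 1)) (ε N) z =
        Dl ν (ε N) z - p (k + 1) * Dl (νk (k + 1)) (ε N) (z - p (k + 1)) := by linarith
    have h7 : (1 - p (k + 1)) * |Dl (νk (k + 1)) (ε N) z| ≤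
        |Dl ν (ε N) z| + p (k + 1) * |Dl (νk (k + 1)) (ε N) (z - p (k + 1))| := by
      calc (1 - p (k + 1)) * |Dl (νk (k + 1)) (ε N) z|
          = |(1 - p (k + 1)) * Dl (νk (k + 1)) (ε N) z| := by
            rw [abs_mul, abs_of_pos hq]
        _ = |Dl ν (ε N) z - p (k + 1) * Dl (νk (k + 1)) (ε N) (z - p (k + 1))| := by rw [h6]
        _ ≤ |Dl ν (ε N) z| + |p (k + 1) * Dl (νk (k + 1)) (ε N) (z - p (k + 1))| := abs_sub _ _
        _ = |Dl ν (ε N) z| + p (k + 1) * |Dl (νk (k + 1)) (ε N) (z - p (k + 1))| := by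
            rw [abs_mul, abs_of_pos hp0]
    have h8 : (1 - p (k + 1)) * |Dl (νk (k + 1)) (ε N) z| ≤
        δ / 4 + p (k + 1) * (1 / (1 - p (k + 1)) * a N + δ / 2) :=
      h7.trans (add_le_add h4 (mul_le_mul_of_nonneg_left h3 hp0.le))
    have hpq : p (k + 1) * (1 / (1 - p (k + 1))) ≤ 1 / 2 := by
      rw [mul_one_div, div_le_iff₀ hq]
      linarith
    have h9 : δ / 4 + p (k + 1) * (1 / (1 - p (k + 1)) * a N + δ / 2) ≤
        (1 - p (k + 1)) * (3 / 4 * a N + δ) := by
      have h10 : p (k + 1) * (1 / (1 - p (k + 1)) * a N) ≤ 1 / 2 * a N := by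
        rw [← mul_assoc]
        exact mul_le_mul_of_nonneg_right hpq (ha0 N)
      have h11 := ha0 N
      nlinarith
    exact le_of_mul_le_mul_left (h8.trans h9) hq
  -- boundedness of the density near `[1/12, 1/2]`
  obtain ⟨C, η, hC0, hη0, hη1, hC⟩ : ∃ C η : ℝ, 0 ≤ C ∧ 0 < η ∧ η ≤ 1 / 12 ∧
      ∀ x, 1 / 12 ≤ x → x < 1 / 2 + η → g x ≤ C := by
    have hcon : ContinuousOn g (Set.Icc (1 / 12) (1 / 2)) := fun x hx =>
      (hc x ⟨by linarith [hx.1], hx.2⟩).continuousWithinAt
    obtain ⟨C1, hC1⟩ := isCompact_Icc.bddAbove_image hcon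
    obtain ⟨η, hη, hη'⟩ := Metric.continuousAt_iff.1 (hc (1 / 2) ⟨by norm_num, le_rfl⟩) 1 one_pos
    refine ⟨max (max C1 (g (1 / 2) + 1)) 0, min η (1 / 12), le_max_right _ _,
      lt_min hη (by norm_num), min_le_right _ _, fun x hx1 hx2 => ?_⟩
    rcases le_or_gt x (1 / 2) with h | h
    · exact (hC1 ⟨x, ⟨hx1, h⟩, rfl⟩).trans ((le_max_left _ _).trans (le_max_left _ _))
    · have h1 := hη' (x := x) (by
        rw [Real.dist_eq, abs_of_pos (by linarith)]
        linarith [min_le_left η (1 / 12)])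
      rw [Real.dist_eq, abs_lt] at h1
      have h2 : g x ≤ g (1 / 2) + 1 := by linarith
      exact h2.trans ((le_max_right _ _).trans (le_max_left _ _))
  have hmC : ∀ N y, ε N < η → 1 / 12 ≤ y → y ≤ 1 / 2 → m ν (ε N) y ≤ C * ε N := by
    intro N y h1 h2 h3
    exact m_le hd (hε0 N).le hC0 fun x hx => hC x (h2.trans hx.1) (by linarith [hx.2])
  have hmkC : ∀ k N y, ε N < η → 1 / 12 ≤ y → y ≤ 1 / 2 →
      m (νk (k + 1)) (ε N) y ≤ 3 / 2 * C * ε N := by
    intro k N y h1 h2 h3
    have h4 := hm1 (k + 1) N y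
    have h5 := m_nonneg (νk (k + 1)) (ε N) (y - p (k + 1))
    have h6 := hmC N y h1 h2 h3
    have h7 := p_le_third k
    have h8 := p_pos (k + 1)
    have h9 := m_nonneg (νk (k + 1)) (ε N) y
    have h10 : 2 / 3 * m (νk (k + 1)) (ε N) y ≤ C * ε N := by nlinarith
    linarith
  have hDkC : ∀ k N, ε N < η → |Dl (νk (k + 1)) (ε N) (1 / 2 - p (k + 1))| ≤ 3 / 2 * C := by
    intro k N h1
    have h2 := p_le_third k
    have h3 := p_pos (k + 1)
    have h4 := hmkC k N (1 / 2 - p (k + 1)) h1 (by linarith) (by linarith)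
    have h5 := hmkC k N (1 / 2 - p (k + 1) - ε N) h1 (by linarith) (by linarith [hε0 N])
    have h6 := m_nonneg (νk (k + 1)) (ε N) (1 / 2 - p (k + 1))
    have h7 := m_nonneg (νk (k + 1)) (ε N) (1 / 2 - p (k + 1) - ε N)
    unfold Dl
    rw [abs_div, abs_of_pos (hε0 N), div_le_iff₀ (hε0 N), abs_le]
    constructor <;> linarith
  -- the size-bias identity
  have hsb : ∀ N, ε N < η → ∑' k, p k ^ 2 * Dl (νk k) (ε N) (1 / 2 - p k) ≤
      1 / 2 * Dl ν (ε N) (1 / 2) + 2 * C * ε N := by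
    intro N hN
    have h1 := M2 (1 / 2) (1 / 2 + ε N) (by norm_num)
    have h2 := M2 (1 / 2 - ε N) (1 / 2) (by linarith)
    have h3 := (h1.sub h2).div_const (ε N)
    have h4 : (fun k => (p k ^ 2 * (νk k).real (Set.Ico (1 / 2 - p k) (1 / 2 + ε N - p k)) -
        p k ^ 2 * (νk k).real (Set.Ico (1 / 2 - ε N - p k) (1 / 2 - p k))) / ε N) =
        fun k => p k ^ 2 * Dl (νk k) (ε N) (1 / 2 - p k) := by
      funext k
      unfold Dl m
      have e1 : 1 / 2 + ε N - p k = 1 / 2 - p k + ε N := by ring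
      have e2 : 1 / 2 - ε N - p k = 1 / 2 - p k - ε N := by ring
      have e3 : 1 / 2 - p k - ε N + ε N = 1 / 2 - p k := by ring
      rw [e1, e2, e3]
      ring
    rw [h4] at h3
    rw [h3.tsum_eq, div_le_iff₀ (hε0 N)]
    have hint : ∀ y z : ℝ, IntegrableOn (fun x : ℝ => x) (Set.Ico y z) ν := fun y z =>
      (continuous_id.integrableOn_Icc (a := y) (b := z)).mono_set Set.Ico_subset_Icc_self
    have h5 : ∫ x in Set.Ico (1 / 2) (1 / 2 + ε N), x ∂ν ≤ (1 / 2 + ε N) * m ν (ε N) (1 / 2) := by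
      calc ∫ x in Set.Ico (1 / 2) (1 / 2 + ε N), x ∂ν
          ≤ ∫ x in Set.Ico (1 / 2) (1 / 2 + ε N), (1 / 2 + ε N) ∂ν := by
            refine setIntegral_mono_on (hint _ _) (integrable_const _).integrableOn
              measurableSet_Ico fun x hx => hx.2.le
        _ = (1 / 2 + ε N) * m ν (ε N) (1 / 2) := by
            rw [setIntegral_const, smul_eq_mul, mul_comm]
            rfl
    have h6 : (1 / 2 - ε N) * m ν (ε N) (1 / 2 - ε N) ≤
        ∫ x in Set.Ico (1 / 2 - ε N) (1 / 2), x ∂ν := by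
      calc (1 / 2 - ε N) * m ν (ε N) (1 / 2 - ε N)
          = ∫ x in Set.Ico (1 / 2 - ε N) (1 / 2), (1 / 2 - ε N) ∂ν := by
            rw [setIntegral_const, smul_eq_mul, mul_comm]
            unfold m
            rw [sub_add_cancel]
        _ ≤ ∫ x in Set.Ico (1 / 2 - ε N) (1 / 2), x ∂ν := by
            refine setIntegral_mono_on (integrable_const _).integrableOn (hint _ _)
              measurableSet_Ico fun x hx => hx.1
    have h7 := hmC N (1 / 2) hN (by norm_num) le_rfl
    have h8 := hmC N (1 / 2 - ε N) hN (by linarith) (by linarith [hε0 N])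
    have h9 : Dl ν (ε N) (1 / 2) * ε N = m ν (ε N) (1 / 2) - m ν (ε N) (1 / 2 - ε N) := by
      unfold Dl
      rw [div_mul_cancel₀ _ (hε0 N).ne']
    have h10 := hε0 N
    nlinarith
  -- the remainders tend to zero
  set s : ℕ → ℕ → ℝ := fun N k => p (k + 1) ^ 2 *
    min (max 0 (|Dl (νk (k + 1)) (ε N) (1 / 2 - p (k + 1))| - 3 / 4 * a N)) (3 / 2 * C) with hs
  have hst : Tendsto (fun N => ∑' k, s N k) atTop (𝓝 (∑' _k : ℕ, (0 : ℝ))) := by
    refine tendsto_tsum_of_dominated_convergence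
      (bound := fun k => p (k + 1) ^ 2 * (3 / 2 * C)) (summable_p_sq.mul_right _) ?_ ?_
    · intro k
      have h1 : Tendsto (fun N => max 0 (|Dl (νk (k + 1)) (ε N) (1 / 2 - p (k + 1))| -
          3 / 4 * a N)) atTop (𝓝 0) := by
        rw [Metric.tendsto_atTop']
        intro δ hδ
        have h2 := href k (1 / 2 - p (k + 1))
          ⟨by linarith [p_le_third k], by linarith [p_pos (k + 1)]⟩ (δ / 2) (by positivity)
        obtain ⟨N0, hN0⟩ := eventually_atTop.1 h2
        refine ⟨N0, fun N hN => ?_⟩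
        have h3 := hN0 N hN.le
        rw [Real.dist_eq, sub_zero, abs_of_nonneg (le_max_left _ _)]
        refine max_lt hδ ?_
        linarith
      have h2 := (h1.min (tendsto_const_nhds (x := 3 / 2 * C))).const_mul (p (k + 1) ^ 2)
      rw [min_eq_left (by positivity), mul_zero] at h2
      exact h2
    · refine Eventually.of_forall fun N k => ?_
      have h1 : 0 ≤ min (max 0 (|Dl (νk (k + 1)) (ε N) (1 / 2 - p (k + 1))| - 3 / 4 * a N))
          (3 / 2 * C) := le_min (le_max_left _ _) (by positivity)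
      rw [Real.norm_of_nonneg (mul_nonneg (sq_nonneg _) h1)]
      exact mul_le_mul_of_nonneg_left (min_le_right _ _) (sq_nonneg _)
  rw [tsum_zero] at hst
  -- the conclusion
  have h1 := hDt' (1 / 2) ⟨by norm_num, le_rfl⟩ (1 / 200) (by norm_num)
  have h2 : ∀ᶠ N in atTop, 2 * C * ε N < 1 / 200 := by
    have := hεt.const_mul (2 * C)
    rw [mul_zero] at this
    exact this.eventually (gt_mem_nhds (by norm_num))
  have h3 := hst.eventually (gt_mem_nhds (show (0 : ℝ) < 1 / 200 by norm_num))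
  obtain ⟨N, h1, h2, h3, h4, h5⟩ := (h1.and (h2.and (h3.and ((hεlt η hη0).and (hzero 0))))).exists
  have h6 := hsb N h4
  have hsumm : Summable fun k => p k ^ 2 * Dl (νk k) (ε N) (1 / 2 - p k) := by
    rw [← summable_nat_add_iff 1]
    refine Summable.of_norm_bounded (g := fun k => p (k + 1) ^ 2 * (3 / 2 * C))
      (summable_p_sq.mul_right _) fun k => ?_
    rw [Real.norm_eq_abs, abs_mul, abs_of_nonneg (sq_nonneg (p (k + 1)))]
    exact mul_le_mul_of_nonneg_left (hDkC k N h4) (sq_nonneg _)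
  rw [hsumm.tsum_eq_zero_add] at h6
  have h7 : p 0 ^ 2 * Dl (νk 0) (ε N) (1 / 2 - p 0) = a N / 2 := by
    rw [p_zero, sub_self, h5, p_zero]
    ring
  rw [h7] at h6
  have hs_summ : Summable fun k => s N k := by
    refine Summable.of_nonneg_of_le (fun k => ?_) (fun k => ?_)
      (summable_p_sq.mul_right (3 / 2 * C))
    · exact mul_nonneg (sq_nonneg _) (le_min (le_max_left _ _) (by positivity))
    · exact mul_le_mul_of_nonneg_left (min_le_right _ _) (sq_nonneg _)
  have h8 : -(∑' k, (p (k + 1) ^ 2 * (3 / 4 * a N) + s N k)) ≤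
      ∑' k, p (k + 1) ^ 2 * Dl (νk (k + 1)) (ε N) (1 / 2 - p (k + 1)) := by
    rw [← tsum_neg]
    refine Summable.tsum_le_tsum (fun k => ?_)
      ((summable_p_sq.mul_right _).add hs_summ).neg ((summable_nat_add_iff 1).2 hsumm)
    have h9 := hDkC k N h4
    have h10 : |Dl (νk (k + 1)) (ε N) (1 / 2 - p (k + 1))| ≤ 3 / 4 * a N +
        min (max 0 (|Dl (νk (k + 1)) (ε N) (1 / 2 - p (k + 1))| - 3 / 4 * a N)) (3 / 2 * C) := by
      rcases le_total (max 0 (|Dl (νk (k + 1)) (ε N) (1 / 2 - p (k + 1))| - 3 / 4 * a N))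
        (3 / 2 * C) with h | h
      · rw [min_eq_left h]
        have := le_max_right 0 (|Dl (νk (k + 1)) (ε N) (1 / 2 - p (k + 1))| - 3 / 4 * a N)
        linarith
      · rw [min_eq_right h]
        have := ha0 N
        linarith
    have h11 := neg_abs_le (Dl (νk (k + 1)) (ε N) (1 / 2 - p (k + 1)))
    have h12 : 0 ≤ p (k + 1) ^ 2 := sq_nonneg _
    simp only [hs]
    rw [← mul_add, ← mul_neg]
    exact mul_le_mul_of_nonneg_left (by linarith) h12
  rw [Summable.tsum_add (summable_p_sq.mul_right _) hs_summ, tsum_mul_right] at h8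
  have h9 : (∑' k, p (k + 1) ^ 2) * (3 / 4 * a N) ≤ 1 / 2 * (3 / 4 * a N) :=
    mul_le_mul_of_nonneg_right tsum_p_sq (by linarith [ha0 N])
  have h10 := le_abs_self (Dl ν (ε N) (1 / 2))
  have h11 := ha N
  linarith

end Q289.RH
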