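import Pool.Agent.Q289.RH.Analytic

/-!
# The record-indicator harmonic series: the probabilistic part
-/

set_option autoImplicit false
set_option linter.unusedSectionVars false

open MeasureTheory ProbabilityTheory Filter Topology

namespace Q289.RH

variable {Ω : Type} [MeasurableSpace Ω] {P : Measure Ω} [IsProbabilityMeasure P]
  {J : ℕ → Ω → ℝ}

/-- the hypotheses on the indicators -/
structure Ind (P : Measure Ω) (J : ℕ → Ω → ℝ) : Prop where
  meas : ∀ k, Measurable (J k)
  val : ∀ k ω, J k ω = 0 ∨ J k ω = 1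
  prob : ∀ k, P.real {ω | J k ω = 1} = p k
  indep : iIndepFun J P

theorem Ind.nonneg (h : Ind P J) (k : ℕ) (ω : Ω) : 0 ≤ J k ω := by
  rcases h.val k ω with h | h <;> rw [h] <;> norm_num

theorem Ind.le_one (h : Ind P J) (k : ℕ) (ω : Ω) : J k ω ≤ 1 := by
  rcases h.val k ω with h | h <;> rw [h] <;> norm_num

theorem Ind.term_nonneg (h : Ind P J) (k : ℕ) (ω : Ω) : 0 ≤ J k ω * p k :=
  mul_nonneg (h.nonneg k ω) (p_pos k).le

theorem Ind.eq_indicator (h : Ind P J) (k : ℕ) :
    (fun ω => J k ω) = Set.indicator {ω | J k ω = 1} 1 := by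
  funext ω
  by_cases h1 : J k ω = 1
  · rw [Set.indicator_of_mem (show ω ∈ {ω | J k ω = 1} from h1), h1]; rfl
  · rw [Set.indicator_of_notMem (show ω ∉ {ω | J k ω = 1} from h1)]
    exact (h.val k ω).resolve_right h1

theorem Ind.measSet (h : Ind P J) (k : ℕ) (c : ℝ) : MeasurableSet {ω | J k ω = c} :=
  h.meas k (measurableSet_singleton c)

/-- independence of two disjoint blocks of indicators -/
theorem Ind.indep_blocks (h : Ind P J) {A B : Set ℕ} (hAB : Disjoint A B) {s t : Set Ω}
    (hs : MeasurableSet[⨆ i ∈ A, MeasurableSpace.comap (J i) inferInstance] s)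
    (ht : MeasurableSet[⨆ i ∈ B, MeasurableSpace.comap (J i) inferInstance] t) :
    P.real (s ∩ t) = P.real s * P.real t := by
  have h1 := indep_iSup_of_disjoint (m := fun i => MeasurableSpace.comap (J i) inferInstance)
    (fun i => (h.meas i).comap_le) h.indep.iIndep hAB
  have h2 := (Indep_iff _ _ _).1 h1 s t hs ht
  rw [measureReal_def, h2, ENNReal.toReal_mul, measureReal_def, measureReal_def]

theorem meas_block {A : Set ℕ} {i : ℕ} (hi : i ∈ A) :
    Measurable[⨆ i ∈ A, MeasurableSpace.comap (J i) inferInstance] (J i) := by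
  have h1 : Measurable[MeasurableSpace.comap (J i) inferInstance] (J i) :=
    comap_measurable (J i)
  exact h1.mono (le_iSup₂_of_le i hi le_rfl) le_rfl

theorem summable_sq : Summable fun k => p k ^ 2 := (summable_nat_add_iff 1).1 summable_p_sq

theorem Ind.integral_term (h : Ind P J) (k : ℕ) : ∫ ω, J k ω * p k ∂P = p k ^ 2 := by
  rw [integral_mul_const, h.eq_indicator k, integral_indicator_one (h.measSet k 1), h.prob k]
  ring

theorem Ind.integrable_term (h : Ind P J) (k : ℕ) : Integrable (fun ω => J k ω * p k) P := by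
  refine Integrable.of_bound ((h.meas k).mul_const _).aestronglyMeasurable (p k)
    (Eventually.of_forall fun ω => ?_)
  rw [Real.norm_of_nonneg (h.term_nonneg k ω)]
  have := h.le_one k ω
  have := p_pos k
  nlinarith

theorem Ind.ae_summable (h : Ind P J) : ∀ᵐ ω ∂P, Summable fun k => J k ω * p k := by
  have h1 : ∫⁻ ω, ∑' k, ENNReal.ofReal (J k ω * p k) ∂P ≠ ⊤ := by
    rw [lintegral_tsum fun k => ((h.meas k).mul_const _).ennreal_ofReal.aemeasurable]
    have h2 : ∀ k, ∫⁻ ω, ENNReal.ofReal (J k ω * p k) ∂P = ENNReal.ofReal (p k ^ 2) := by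
      intro k
      rw [← ofReal_integral_eq_lintegral_ofReal (h.integrable_term k)
        (Eventually.of_forall fun ω => h.term_nonneg k ω), h.integral_term k]
    simp_rw [h2]
    rw [← ENNReal.ofReal_tsum_of_nonneg (fun k => sq_nonneg _) summable_sq]
    exact ENNReal.ofReal_ne_top
  have h2 : Measurable fun ω => ∑' k, ENNReal.ofReal (J k ω * p k) :=
    Measurable.tsum fun k => ((h.meas k).mul_const _).ennreal_ofReal
  filter_upwards [ae_lt_top h2 h1] with ω hω
  have h3 := ENNReal.summable_toReal hω.ne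
  refine h3.congr fun k => ?_
  exact ENNReal.toReal_ofReal (h.term_nonneg k ω)

/-- the sum without its first term -/
noncomputable def T (J : ℕ → Ω → ℝ) (ω : Ω) : ℝ := ∑' k, J k ω * p k

/-- the sum without the term of index `k` -/
noncomputable def Tk (J : ℕ → Ω → ℝ) (k : ℕ) (ω : Ω) : ℝ :=
  ∑' j, if j = k then 0 else J j ω * p j

/-- the sum from the index `K` on -/
noncomputable def U (J : ℕ → Ω → ℝ) (K : ℕ) (ω : Ω) : ℝ :=
  ∑' j, if j < K then 0 else J j ω * p j

theorem Ind.meas_T (h : Ind P J) : Measurable (T J) :=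
  Measurable.tsum fun k => (h.meas k).mul_const _

theorem Ind.meas_Tk (h : Ind P J) (k : ℕ) : Measurable (Tk J k) := by
  refine Measurable.tsum fun j => ?_
  by_cases hj : j = k
  · simp only [hj, if_true]; exact measurable_const
  · simp only [hj, if_false]; exact (h.meas j).mul_const _

theorem Tk_block (k : ℕ) :
    Measurable[⨆ i ∈ ({k}ᶜ : Set ℕ), MeasurableSpace.comap (J i) inferInstance] (Tk J k) := by
  unfold Tk
  refine @Measurable.tsum _ _ _ (⨆ i ∈ ({k}ᶜ : Set ℕ), MeasurableSpace.comap (J i) inferInstance)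
    _ _ _ _ _ _ _ _ _ _ _ _ fun j => ?_
  by_cases hj : j = k
  · simp only [hj, if_true]; exact measurable_const
  · simp only [hj, if_false]
    exact (meas_block (show j ∈ ({k}ᶜ : Set ℕ) from hj)).mul_const _

theorem U_block (K : ℕ) :
    Measurable[⨆ i ∈ (Set.Ici K : Set ℕ), MeasurableSpace.comap (J i) inferInstance] (U J K) := by
  unfold U
  refine @Measurable.tsum _ _ _ (⨆ i ∈ (Set.Ici K : Set ℕ), MeasurableSpace.comap (J i) inferInstance)
    _ _ _ _ _ _ _ _ _ _ _ _ fun j => ?_
  by_cases hj : j < K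
  · simp only [hj, if_true]; exact measurable_const
  · simp only [hj, if_false]
    exact (meas_block (show j ∈ (Set.Ici K : Set ℕ) from not_lt.1 hj)).mul_const _

theorem Ind.T_eq (h : Ind P J) (k : ℕ) : ∀ᵐ ω ∂P, T J ω = J k ω * p k + Tk J k ω := by
  filter_upwards [h.ae_summable] with ω hω
  unfold T Tk
  exact hω.tsum_eq_add_tsum_ite k

theorem Ind.prob_zero (h : Ind P J) (k : ℕ) : P.real {ω | J k ω = 0} = 1 - p k := by
  have h1 : {ω | J k ω = 0} = {ω | J k ω = 1}ᶜ := by
    ext ω
    simp only [Set.mem_ofPred_eq, Set.mem_compl_iff]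
    constructor
    · intro h2 h3; rw [h2] at h3; exact zero_ne_one h3
    · intro h2; exact (h.val k ω).resolve_right h2
  rw [h1, probReal_compl_eq_one_sub (h.measSet k 1), h.prob k]

theorem Ind.joint (h : Ind P J) (k : ℕ) (c : ℝ) {A : Set ℝ} (hA : MeasurableSet A) :
    P.real ({ω | J k ω = c} ∩ Tk J k ⁻¹' A) = P.real {ω | J k ω = c} * P.real (Tk J k ⁻¹' A) := by
  refine h.indep_blocks (A := {k}) (B := {k}ᶜ) disjoint_compl_right ?_ ?_
  · exact (meas_block (Set.mem_singleton k)) (measurableSet_singleton c)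
  · exact (Tk_block k) hA

theorem Ind.joint_one (h : Ind P J) (k : ℕ) {A : Set ℝ} (hA : MeasurableSet A) :
    P.real ({ω | J k ω = 1} ∩ T J ⁻¹' A) = p k * P.real (Tk J k ⁻¹' ((fun x => p k + x) ⁻¹' A)) := by
  have e := h.joint k 1 (measurable_const_add (p k) hA)
  rw [h.prob k] at e
  rw [← e]
  refine measureReal_congr ?_
  filter_upwards [h.T_eq k] with ω hω
  refine propext (and_congr_right fun h1 => ?_)
  change T J ω ∈ A ↔ p k + Tk J k ω ∈ A
  have h2 : J k ω = 1 := h1
  rw [hω, h2, one_mul]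

theorem Ind.joint_zero (h : Ind P J) (k : ℕ) {A : Set ℝ} (hA : MeasurableSet A) :
    P.real ({ω | J k ω = 0} ∩ T J ⁻¹' A) = (1 - p k) * P.real (Tk J k ⁻¹' A) := by
  rw [← h.prob_zero k, ← h.joint k 0 hA]
  refine measureReal_congr ?_
  filter_upwards [h.T_eq k] with ω hω
  refine propext (and_congr_right fun h1 => ?_)
  change T J ω ∈ A ↔ Tk J k ω ∈ A
  have h2 : J k ω = 0 := h1
  rw [hω, h2, zero_mul, zero_add]

theorem preimage_Ico (c y z : ℝ) : (fun x => c + x) ⁻¹' Set.Ico y z = Set.Ico (y - c) (z - c) := by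
  ext x
  simp only [Set.mem_preimage, Set.mem_Ico]
  constructor <;> rintro ⟨h1, h2⟩ <;> constructor <;> linarith

theorem map_real {f : Ω → ℝ} (hf : Measurable f) {A : Set ℝ} (hA : MeasurableSet A) :
    (P.map f).real A = P.real (f ⁻¹' A) := map_measureReal_apply hf hA

theorem Ind.M1 (h : Ind P J) (k : ℕ) (y z : ℝ) : (P.map (T J)).real (Set.Ico y z) =
    (1 - p k) * (P.map (Tk J k)).real (Set.Ico y z) +
      p k * (P.map (Tk J k)).real (Set.Ico (y - p k) (z - p k)) := by
  rw [map_real h.meas_T measurableSet_Ico, map_real (h.meas_Tk k) measurableSet_Ico,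
    map_real (h.meas_Tk k) measurableSet_Ico, ← preimage_Ico, ← h.joint_one k measurableSet_Ico,
    ← h.joint_zero k measurableSet_Ico]
  rw [← measureReal_union]
  · congr 1
    ext ω
    simp only [Set.mem_preimage, Set.mem_union, Set.mem_inter_iff, Set.mem_ofPred_eq]
    constructor
    · intro h1
      rcases h.val k ω with h2 | h2
      · exact Or.inl ⟨h2, h1⟩
      · exact Or.inr ⟨h2, h1⟩
    · rintro (⟨_, h1⟩ | ⟨_, h1⟩) <;> exact h1
  · rw [Set.disjoint_left]
    rintro ω ⟨h1, _⟩ ⟨h2, _⟩
    have h1' : J k ω = 0 := h1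
    have h2' : J k ω = 1 := h2
    rw [h1'] at h2'
    exact zero_ne_one h2'
  · exact (h.measSet k 1).inter (h.meas_T measurableSet_Ico)

theorem Ind.M2 (h : Ind P J) (y z : ℝ) :
    HasSum (fun k => p k ^ 2 * (P.map (Tk J k)).real (Set.Ico (y - p k) (z - p k)))
      (∫ x in Set.Ico y z, x ∂(P.map (T J))) := by
  set A := Set.Ico y z with hA
  have hAm : MeasurableSet A := measurableSet_Ico
  have h1 : ∫ x in A, x ∂(P.map (T J)) =
      ∫ ω, (T J ⁻¹' A).indicator (fun ω => T J ω) ω ∂P := by
    rw [integral_indicator (h.meas_T hAm)]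
    exact setIntegral_map hAm aestronglyMeasurable_id h.meas_T.aemeasurable
  have h2 : ∫ ω, (T J ⁻¹' A).indicator (fun ω => T J ω) ω ∂P =
      ∫ ω, ∑' k, (T J ⁻¹' A).indicator (fun ω => J k ω * p k) ω ∂P := by
    refine integral_congr_ae (Eventually.of_forall fun ω => ?_)
    by_cases hω : ω ∈ T J ⁻¹' A
    · simp only [Set.indicator_of_mem hω]; rfl
    · simp only [Set.indicator_of_notMem hω, tsum_zero]
  have hval : ∀ k, ∫ ω, (T J ⁻¹' A).indicator (fun ω => J k ω * p k) ω ∂P =
      p k ^ 2 * (P.map (Tk J k)).real (Set.Ico (y - p k) (z - p k)) := by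
    intro k
    rw [map_real (h.meas_Tk k) measurableSet_Ico, ← preimage_Ico]
    have h3 : (fun ω => (T J ⁻¹' A).indicator (fun ω => J k ω * p k) ω) =
        fun ω => (({ω | J k ω = 1} ∩ T J ⁻¹' A).indicator 1 ω) * p k := by
      funext ω
      by_cases h4 : ω ∈ T J ⁻¹' A
      · rw [Set.indicator_of_mem h4]
        rcases h.val k ω with h5 | h5
        · rw [h5, Set.indicator_of_notMem]
          · rintro ⟨h6, _⟩
            have h6' : J k ω = 1 := h6
            rw [h5] at h6'
            exact zero_ne_one h6'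
        · rw [Set.indicator_of_mem (show ω ∈ {ω | J k ω = 1} ∩ T J ⁻¹' A from ⟨h5, h4⟩), h5]
          rfl
      · rw [Set.indicator_of_notMem h4, Set.indicator_of_notMem (fun h5 => h4 h5.2), zero_mul]
    rw [h3, integral_mul_const, integral_indicator_one ((h.measSet k 1).inter (h.meas_T hAm)),
      h.joint_one k hAm]
    ring
  have hint : ∀ k, Integrable (fun ω => (T J ⁻¹' A).indicator (fun ω => J k ω * p k) ω) P :=
    fun k => (h.integrable_term k).indicator (h.meas_T hAm)
  have hnn : ∀ k ω, 0 ≤ (T J ⁻¹' A).indicator (fun ω => J k ω * p k) ω := fun k ω =>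
    Set.indicator_nonneg (fun ω _ => h.term_nonneg k ω) ω
  rw [h1, h2]
  have h3 := hasSum_integral_of_summable_integral_norm hint (by
    refine Summable.of_nonneg_of_le (fun k => integral_nonneg fun ω => norm_nonneg _)
      (fun k => ?_) summable_sq
    rw [← h.integral_term k]
    refine integral_mono (hint k).norm (h.integrable_term k) fun ω => ?_
    rw [Real.norm_of_nonneg (hnn k ω)]
    exact Set.indicator_le_self' (fun ω _ => h.term_nonneg k ω) ω)
  simp_rw [hval] at h3
  exact h3

theorem sum_tail (K : ℕ) : ∑' k, p (k + K) ^ 2 ≤ 1 / ((K : ℝ) + 1) := by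
  have h1 : Summable fun k => p (k + K) ^ 2 := (summable_nat_add_iff K).2 summable_sq
  refine h1.tsum_le_of_sum_range_le fun M => ?_
  have h2 : ∑ k ∈ Finset.range M, p (k + K) ^ 2 ≤ 1 / ((K : ℝ) + 1) - 1 / ((M : ℝ) + K + 1) := by
    induction M with
    | zero => simp
    | succ M ih =>
      rw [Finset.sum_range_succ]
      have h3 : p (M + K) ^ 2 ≤ 1 / ((M : ℝ) + K + 1) - 1 / (((M + 1 : ℕ) : ℝ) + K + 1) := by
        unfold p
        push_cast
        rw [div_sub_div _ _ (by positivity) (by positivity), div_pow,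
          div_le_div_iff₀ (by positivity) (by positivity)]
        have := Nat.cast_nonneg (α := ℝ) K
        have := Nat.cast_nonneg (α := ℝ) M
        nlinarith
      linarith
  have h3 : 0 < 1 / ((M : ℝ) + K + 1) := by positivity
  linarith

theorem Ind.prob_none (h : Ind P J) (K : ℕ) :
    P.real {ω | ∀ j, j < K → J j ω = 0} = 1 / ((K : ℝ) + 1) := by
  have h1 : {ω | ∀ j, j < K → J j ω = 0} = ⋂ j ∈ Finset.range K, {ω | J j ω = 0} := by
    ext ω; simp
  have h2 := h.indep.meas_biInter (S := Finset.range K) (s := fun j => {ω | J j ω = 0})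
    (fun j _ => ⟨{0}, measurableSet_singleton 0, rfl⟩)
  rw [h1, measureReal_def, h2, ENNReal.toReal_prod]
  have h3 : ∀ j ∈ Finset.range K, (P {ω | J j ω = 0}).toReal = 1 - p j := fun j _ => by
    rw [← measureReal_def, h.prob_zero]
  rw [Finset.prod_congr rfl h3]
  induction K with
  | zero => simp
  | succ K ih =>
    rw [Finset.prod_range_succ, ih (by ext ω; simp) (h.indep.meas_biInter
      (fun j _ => ⟨{0}, measurableSet_singleton 0, rfl⟩)) (fun j _ => by
        rw [← measureReal_def, h.prob_zero])]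
    unfold p
    push_cast
    field_simp
    ring

theorem Ind.nonneg_U (h : Ind P J) (K : ℕ) (ω : Ω) : 0 ≤ U J K ω := by
  refine tsum_nonneg fun j => ?_
  split_ifs
  · exact le_rfl
  · exact h.term_nonneg j ω

theorem Ind.meas_U (h : Ind P J) (K : ℕ) : Measurable (U J K) := by
  refine Measurable.tsum fun j => ?_
  by_cases hj : j < K
  · simp only [hj, if_true]; exact measurable_const
  · simp only [hj, if_false]; exact (h.meas j).mul_const _

theorem Ind.integral_U (h : Ind P J) (K : ℕ) :
    Integrable (U J K) P ∧ ∫ ω, U J K ω ∂P ≤ 1 / ((K : ℝ) + 1) := by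
  have hint : ∀ j, Integrable (fun ω => if j < K then 0 else J j ω * p j) P := by
    intro j
    by_cases hj : j < K
    · simp only [hj, if_true]; exact integrable_const _
    · simp only [hj, if_false]; exact h.integrable_term j
  have hval : ∀ j, ∫ ω, (if j < K then 0 else J j ω * p j) ∂P = if j < K then 0 else p j ^ 2 := by
    intro j
    by_cases hj : j < K
    · simp only [hj, if_true]; simp
    · simp only [hj, if_false]; exact h.integral_term j
  have hnn : ∀ j ω, 0 ≤ (if j < K then 0 else J j ω * p j) := by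
    intro j ω
    split_ifs
    · exact le_rfl
    · exact h.term_nonneg j ω
  have hsum : Summable fun j => if j < K then 0 else p j ^ 2 := by
    refine summable_sq.of_nonneg_of_le (fun j => ?_) fun j => ?_
    · split_ifs
      · exact le_rfl
      · exact sq_nonneg _
    · split_ifs
      · exact sq_nonneg _
      · exact le_rfl
  have hnorm : ∀ j, ∫ ω, ‖(if j < K then 0 else J j ω * p j)‖ ∂P =
      if j < K then 0 else p j ^ 2 := by
    intro j
    rw [← hval j]
    exact integral_congr_ae (Eventually.of_forall fun ω => Real.norm_of_nonneg (hnn j ω))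
  have h3 := hasSum_integral_of_summable_integral_norm hint (by
    simp_rw [hnorm]; exact hsum)
  simp_rw [hval] at h3
  have hle : ∑' j, (if j < K then 0 else p j ^ 2) ≤ 1 / ((K : ℝ) + 1) := by
    refine le_trans (le_of_eq ?_) (sum_tail K)
    rw [← hsum.sum_add_tsum_nat_add K]
    have h4 : ∑ i ∈ Finset.range K, (if i < K then 0 else p i ^ 2) = 0 := by
      refine Finset.sum_eq_zero fun i hi => ?_
      rw [if_pos (Finset.mem_range.1 hi)]
    rw [h4, zero_add]
    refine tsum_congr fun i => ?_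
    rw [if_neg (by omega)]
  refine ⟨?_, ?_⟩
  · refine ⟨(h.meas_U K).aestronglyMeasurable, ?_⟩
    rw [hasFiniteIntegral_iff_ofReal (Eventually.of_forall fun ω => h.nonneg_U K ω)]
    have h5 : ∫⁻ ω, ENNReal.ofReal (U J K ω) ∂P ≤
        ∫⁻ ω, ∑' j, ENNReal.ofReal (if j < K then 0 else J j ω * p j) ∂P := by
      refine lintegral_mono_ae ?_
      filter_upwards [h.ae_summable] with ω hω
      rw [← ENNReal.ofReal_tsum_of_nonneg (hnn · ω)]
      · rfl
      · refine hω.of_nonneg_of_le (hnn · ω) fun j => ?_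
        split_ifs
        · exact h.term_nonneg j ω
        · exact le_rfl
    refine h5.trans_lt ?_
    rw [lintegral_tsum fun j => (hint j).1.aemeasurable.ennreal_ofReal]
    have h6 : ∀ j, ∫⁻ ω, ENNReal.ofReal (if j < K then 0 else J j ω * p j) ∂P =
        ENNReal.ofReal (if j < K then 0 else p j ^ 2) := by
      intro j
      rw [← ofReal_integral_eq_lintegral_ofReal (hint j)
        (Eventually.of_forall fun ω => hnn j ω), hval j]
    simp_rw [h6]
    rw [← ENNReal.ofReal_tsum_of_nonneg (fun j => ?_) hsum]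
    · exact ENNReal.ofReal_lt_top
    · split_ifs
      · exact le_rfl
      · exact sq_nonneg _
  · have h7 : ∫ ω, U J K ω ∂P = ∑' j, (if j < K then 0 else p j ^ 2) := h3.tsum_eq.symm
    rw [h7]; exact hle

theorem Ind.M4 (h : Ind P J) (N : ℕ) (hN : 0 < N) :
    1 / (2 * (N : ℝ)) ≤ (P.map (T J)).real (Set.Ico 0 (2 / N)) := by
  obtain ⟨K, rfl⟩ : ∃ K, N = K + 1 := ⟨N - 1, by omega⟩
  push_cast
  rw [map_real h.meas_T measurableSet_Ico]
  set c : ℝ := 2 / ((K : ℝ) + 1) with hc
  have hc0 : 0 < c := by positivity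
  -- the tail
  have h1 : 1 / 2 ≤ P.real (U J K ⁻¹' Set.Iio c) := by
    obtain ⟨hi, hle⟩ := h.integral_U K
    have h2 := mul_meas_ge_le_integral_of_nonneg (μ := P) (f := U J K)
      (Eventually.of_forall fun ω => h.nonneg_U K ω) hi c
    have h3 : P.real {ω | c ≤ U J K ω} ≤ 1 / 2 := by
      have h4 : c * P.real {ω | c ≤ U J K ω} ≤ c * (1 / 2) := by
        refine (h2.trans hle).trans (le_of_eq ?_)
        rw [hc]; ring
      exact le_of_mul_le_mul_left h4 hc0
    have h4 : U J K ⁻¹' Set.Iio c = {ω | c ≤ U J K ω}ᶜ := by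
      ext ω; simp
    rw [h4, probReal_compl_eq_one_sub (measurableSet_le measurable_const (h.meas_U K))]
    linarith
  have h2 := h.indep_blocks (A := Set.Iio K) (B := Set.Ici K)
    (s := {ω | ∀ j, j < K → J j ω = 0}) (t := U J K ⁻¹' Set.Iio c)
    (Set.Iio_disjoint_Ici le_rfl) (by
      have h3 : {ω | ∀ j, j < K → J j ω = 0} = ⋂ j ∈ Finset.range K, J j ⁻¹' {0} := by
        ext ω; simp
      rw [h3]
      refine Finset.measurableSet_biInter _ fun j hj => ?_
      exact (meas_block (show j ∈ Set.Iio K from Finset.mem_range.1 hj))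
        (measurableSet_singleton 0)) ((U_block K) measurableSet_Iio)
  rw [h.prob_none K] at h2
  have h3 : P.real ({ω | ∀ j, j < K → J j ω = 0} ∩ U J K ⁻¹' Set.Iio c) ≤
      P.real (T J ⁻¹' Set.Ico 0 c) := by
    refine ENNReal.toReal_mono (measure_ne_top _ _) (measure_mono_ae ?_)
    refine Eventually.of_forall fun ω => ?_
    rintro ⟨h4, h5⟩
    have h6 : T J ω = U J K ω := by
      unfold T U
      refine tsum_congr fun j => ?_
      split_ifs with hj
      · rw [h4 j hj, zero_mul]
      · rfl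
    change T J ω ∈ Set.Ico 0 c
    rw [h6]
    exact ⟨h.nonneg_U K ω, h5⟩
  refine le_trans ?_ h3
  rw [h2]
  have h4 : 1 / (2 * ((K : ℝ) + 1)) = 1 / ((K : ℝ) + 1) * (1 / 2) := by
    field_simp
  rw [h4]
  exact mul_le_mul_of_nonneg_left h1 (by positivity)

theorem Ind.M3 (h : Ind P J) (k : ℕ) : (P.map (Tk J k)) (Set.Iio 0) = 0 := by
  rw [Measure.map_apply (h.meas_Tk k) measurableSet_Iio]
  have : Tk J k ⁻¹' Set.Iio 0 = ∅ := by
    ext ω
    simp only [Set.mem_preimage, Set.mem_Iio, Set.mem_empty_iff_false, iff_false, not_lt]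
    refine tsum_nonneg fun j => ?_
    split_ifs
    · exact le_rfl
    · exact h.term_nonneg j ω
  rw [this, measure_empty]

/-- the law of the sum without its first term has no density continuous on `(0, 1/2]` -/
theorem Ind.no_density (h : Ind P J) {g : ℝ → ℝ}
    (hd : P.map (T J) = volume.withDensity fun x => ENNReal.ofReal (g x))
    (hc : ∀ y ∈ Set.Ioc (0 : ℝ) (1 / 2), ContinuousAt g y) : False := by
  have : IsProbabilityMeasure (P.map (T J)) := Measure.isProbabilityMeasure_map h.meas_T.aemeasurable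
  have : ∀ k, IsProbabilityMeasure (P.map (Tk J k)) := fun k =>
    Measure.isProbabilityMeasure_map (h.meas_Tk k).aemeasurable
  exact analytic (P.map (T J)) (fun k => P.map (Tk J k)) h.M1 (fun y z _ => h.M2 y z)
    h.M3 h.M4 hd hc

end Q289.RH
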